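import Mathlib

/-!
# A family of real spaces with numerical index one which are close to Euclidean space

`Y k l` is the space of all `(f, y, z)`, `f ∈ ℝ`, `y ∈ (ℝ³)^k`, `z ∈ ℝ^l` with
`y i 0 + y i 1 + y i 2 = f` for all `i`, with the sup norm.
-/

set_option autoImplicit false

open Set

namespace Pool.Agent.H939R3.Join

/-- the ambient space, with the sup norm -/
abbrev Amb (k l : ℕ) : Type := ℝ × (Fin k → Fin 3 → ℝ) × (Fin l → ℝ)

/-- the space -/
def Y (k l : ℕ) : Submodule ℝ (Amb k l) where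
  carrier := {p | ∀ i, p.2.1 i 0 + p.2.1 i 1 + p.2.1 i 2 = p.1}
  add_mem' := by
    intro p q hp hq i
    have h1 := hp i
    have h2 := hq i
    simp only [Prod.fst_add, Prod.snd_add, Pi.add_apply]
    linarith
  zero_mem' := by intro i; simp
  smul_mem' := by
    intro c p hp i
    have h1 := hp i
    simp only [Prod.smul_fst, Prod.smul_snd, Pi.smul_apply, smul_eq_mul]
    rw [← h1]; ring

variable {k l : ℕ}

lemma mem_Y {p : Amb k l} : p ∈ Y k l ↔ ∀ i, p.2.1 i 0 + p.2.1 i 1 + p.2.1 i 2 = p.1 := Iff.rfl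

lemma norm_le_iff {p : Amb k l} {r : ℝ} (hr : 0 ≤ r) :
    ‖p‖ ≤ r ↔ |p.1| ≤ r ∧ (∀ i j, |p.2.1 i j| ≤ r) ∧ ∀ t, |p.2.2 t| ≤ r := by
  rw [Prod.norm_def, Prod.norm_def, max_le_iff, max_le_iff, pi_norm_le_iff_of_nonneg hr,
    pi_norm_le_iff_of_nonneg hr]
  refine and_congr Iff.rfl (and_congr ?_ Iff.rfl)
  exact forall_congr' fun i => pi_norm_le_iff_of_nonneg hr

/-- the vertices of the unit ball -/
def Vert (k l : ℕ) : Set (Amb k l) :=
  {p | p ∈ Y k l ∧ |p.1| = 1 ∧ (∀ i j, |p.2.1 i j| = 1) ∧ ∀ t, |p.2.2 t| = 1}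

/-- the splitting of one block -/
lemma decomp (f : ℝ) (h1 : -1 < f) (h2 : f < 1) (y : Fin 3 → ℝ) (hy : ∀ j, |y j| ≤ 1)
    (hs : y 0 + y 1 + y 2 = f) : ∃ u u' : Fin 3 → ℝ, (∀ j, |u j| ≤ 1) ∧ u 0 + u 1 + u 2 = 1 ∧
      (∀ j, |u' j| ≤ 1) ∧ u' 0 + u' 1 + u' 2 = -1 ∧
      ∀ j, y j = (1 + f) / 2 * u j + (1 - f) / 2 * u' j := by
  set θ := (1 + f) / 2 with hθ
  set t := (1 - f) / 2 with ht
  have hθ0 : 0 < θ := by rw [hθ]; linarith
  have ht0 : 0 < t := by rw [ht]; linarith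
  have hθt : θ + t = 1 := by rw [hθ, ht]; ring
  have hθt2 : θ - t = f := by rw [hθ, ht]; ring
  obtain ⟨R, hR0, hRt, hRs, hRy, hRy'⟩ : ∃ R : Fin 3 → ℝ, (∀ j, 0 ≤ R j) ∧ (∀ j, R j ≤ t) ∧
      R 0 + R 1 + R 2 = t ∧ (∀ j, 0 ≤ (1 - y j) / 2 - t + R j) ∧
      (∀ j, (1 - y j) / 2 - t + R j ≤ θ) := by
    have a0 := abs_le.1 (hy 0)
    have a1 := abs_le.1 (hy 1)
    have a2 := abs_le.1 (hy 2)
    set L : Fin 3 → ℝ := fun j => max 0 (t - (1 - y j) / 2) with hL
    have hL0 : ∀ j, 0 ≤ L j := fun j => le_max_left _ _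
    have hL1 : ∀ j, t - (1 - y j) / 2 ≤ L j := fun j => le_max_right _ _
    have hsum : L 0 + L 1 + L 2 ≤ t := by
      rcases max_cases 0 (t - (1 - y 0) / 2) with ⟨e0, c0⟩ | ⟨e0, c0⟩ <;>
      rcases max_cases 0 (t - (1 - y 1) / 2) with ⟨e1, c1⟩ | ⟨e1, c1⟩ <;>
      rcases max_cases 0 (t - (1 - y 2) / 2) with ⟨e2, c2⟩ | ⟨e2, c2⟩ <;>
      simp only [hL, e0, e1, e2] <;> linarith
    refine ⟨![L 0 + (t - (L 0 + L 1 + L 2)), L 1, L 2], ?_, ?_, ?_, ?_, ?_⟩
    · intro j; fin_cases j <;> simp <;> linarith [hL0 0, hL0 1, hL0 2]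
    · intro j; fin_cases j <;> simp <;> linarith [hL0 0, hL0 1, hL0 2]
    · show L 0 + (t - (L 0 + L 1 + L 2)) + L 1 + L 2 = t
      ring
    · intro j; fin_cases j <;> simp <;> linarith [hL1 0, hL1 1, hL1 2]
    · have k0 := hL1 0
      have k1 := hL1 1
      have k2 := hL1 2
      intro j; fin_cases j <;> simp <;> linarith
  refine ⟨fun j => 1 - 2 * (((1 - y j) / 2 - t + R j) / θ), fun j => 2 * (R j / t) - 1,
    ?_, ?_, ?_, ?_, ?_⟩
  · intro j
    have e1 : 0 ≤ ((1 - y j) / 2 - t + R j) / θ := div_nonneg (hRy j) hθ0.le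
    have e2 : ((1 - y j) / 2 - t + R j) / θ ≤ 1 := (div_le_one hθ0).2 (hRy' j)
    rw [abs_le]; constructor <;> linarith
  · field_simp
    linarith
  · intro j
    have e1 : 0 ≤ R j / t := div_nonneg (hR0 j) ht0.le
    have e2 : R j / t ≤ 1 := (div_le_one ht0).2 (hRt j)
    rw [abs_le]; constructor <;> linarith
  · field_simp
    linarith
  · intro j
    have e1 : θ * (((1 - y j) / 2 - t + R j) / θ) = (1 - y j) / 2 - t + R j := by
      field_simp
    have e2 : t * (R j / t) = R j := by field_simp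
    simp only
    linarith

/-- the three vertices of a block over `f = 1` -/
def w (j : Fin 3) : Fin 3 → ℝ := fun i => if i = j then -1 else 1

lemma block_mem {u : Fin 3 → ℝ} (hu : ∀ j, |u j| ≤ 1) (hs : u 0 + u 1 + u 2 = 1) :
    u ∈ convexHull ℝ (range w) := by
  have h0 := abs_le.1 (hu 0)
  have h1 := abs_le.1 (hu 1)
  have h2 := abs_le.1 (hu 2)
  have e : u = ∑ j : Fin 3, ((1 - u j) / 2) • w j := by
    rw [Fin.sum_univ_three]
    ext i
    fin_cases i <;> simp [w] <;> linarith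
  rw [e]
  refine (convex_convexHull ℝ (range w)).sum_mem (fun j _ => ?_) ?_
    (fun j _ => subset_convexHull ℝ _ ⟨j, rfl⟩)
  · have := abs_le.1 (hu j)
    linarith
  · rw [Fin.sum_univ_three]; linarith

/-- points of the unit ball over `f = 1` -/
lemma top_mem {u : Fin k → Fin 3 → ℝ} {z : Fin l → ℝ} (hu : ∀ i j, |u i j| ≤ 1)
    (hs : ∀ i, u i 0 + u i 1 + u i 2 = 1) (hz : ∀ t, |z t| ≤ 1) :
    ((1 : ℝ), u, z) ∈ convexHull ℝ (Vert k l) := by
  have h1 : ((1 : ℝ), u, z) ∈ (convexHull ℝ ({1} : Set ℝ)) ×ˢ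
      (univ.pi (fun _ : Fin k => convexHull ℝ (range w)) ×ˢ
        univ.pi (fun _ : Fin l => convexHull ℝ ({-1, 1} : Set ℝ))) := by
    refine ⟨subset_convexHull ℝ _ rfl, fun i _ => block_mem (hu i) (hs i), fun t _ => ?_⟩
    rw [convexHull_pair, segment_eq_Icc (by norm_num)]
    exact abs_le.1 (hz t)
  rw [← convexHull_pi, ← convexHull_pi, ← convexHull_prod, ← convexHull_prod] at h1
  refine convexHull_mono ?_ h1
  rintro ⟨a, b, c⟩ ⟨ha, hb, hc⟩
  have ha' : a = 1 := ha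
  subst ha'
  refine ⟨?_, abs_one, ?_, ?_⟩
  · intro i
    obtain ⟨j, hj⟩ := hb i (mem_univ i)
    have hj' : w j = b i := hj
    show b i 0 + b i 1 + b i 2 = 1
    rw [← hj']
    fin_cases j <;> simp [w]
  · intro i m
    obtain ⟨j, hj⟩ := hb i (mem_univ i)
    have hj' : w j = b i := hj
    show |b i m| = 1
    rw [← hj']
    unfold w
    split_ifs <;> simp
  · intro t
    rcases hc t (mem_univ t) with h | h
    · have h' : c t = -1 := h
      show |c t| = 1
      rw [h']; simp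
    · have h' : c t = 1 := h
      show |c t| = 1
      rw [h']; simp

lemma neg_Vert : -(Vert k l) = Vert k l := by
  ext p
  rw [mem_neg]
  constructor
  · rintro ⟨h1, h2, h3, h4⟩
    refine ⟨by simpa using (Y k l).neg_mem h1, by simpa using h2, fun i j => by simpa using h3 i j,
      fun t => by simpa using h4 t⟩
  · rintro ⟨h1, h2, h3, h4⟩
    refine ⟨(Y k l).neg_mem h1, by simpa using h2, fun i j => by simpa using h3 i j,
      fun t => by simpa using h4 t⟩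

lemma bot_mem {u : Fin k → Fin 3 → ℝ} {z : Fin l → ℝ} (hu : ∀ i j, |u i j| ≤ 1)
    (hs : ∀ i, u i 0 + u i 1 + u i 2 = -1) (hz : ∀ t, |z t| ≤ 1) :
    ((-1 : ℝ), u, z) ∈ convexHull ℝ (Vert k l) := by
  have h := top_mem (k := k) (l := l) (u := -u) (z := -z) (by simpa using hu)
    (by intro i; have := hs i; simp only [Pi.neg_apply]; linarith) (by simpa using hz)
  have h2 : -((1 : ℝ), -u, -z) ∈ -(convexHull ℝ (Vert k l)) := by
    rw [mem_neg, neg_neg]; exact h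
  rw [← convexHull_neg, neg_Vert] at h2
  simpa using h2

/-- the unit ball is the convex hull of the vertices -/
theorem ball_subset {p : Amb k l} (hp : p ∈ Y k l) (hn : ‖p‖ ≤ 1) :
    p ∈ convexHull ℝ (Vert k l) := by
  obtain ⟨h1, h2, h3⟩ := (norm_le_iff zero_le_one).1 hn
  obtain ⟨f, y, z⟩ := p
  have hs : ∀ i, y i 0 + y i 1 + y i 2 = f := hp
  simp only at h1 h2 h3
  rcases eq_or_lt_of_le (abs_le.1 h1).2 with h | hlt
  · subst h
    exact top_mem h2 hs h3
  rcases eq_or_lt_of_le (abs_le.1 h1).1 with h | hgt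
  · subst h
    exact bot_mem h2 hs h3
  choose u u' a1 a2 a3 a4 a5 using fun i => decomp f hgt hlt (y i) (h2 i) (hs i)
  have e : ((f, y, z) : Amb k l) = ((1 + f) / 2) • ((1 : ℝ), u, z) +
      ((1 - f) / 2) • ((-1 : ℝ), u', z) := by
    refine Prod.ext ?_ (Prod.ext ?_ ?_)
    · simp only [Prod.smul_fst, Prod.fst_add, smul_eq_mul]
      ring
    · ext i j
      simpa using a5 i j
    · ext t
      simp only [Prod.smul_snd, Prod.snd_add, Pi.add_apply, Pi.smul_apply, smul_eq_mul]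
      ring
  rw [e]
  exact (convex_convexHull ℝ (Vert k l)) (top_mem a1 a2 h3) (bot_mem a3 a4 h3)
    (by linarith) (by linarith) (by ring)

/-- a linear functional on the space attains its maximum on the unit ball at a vertex -/
theorem exists_vert (g : Y k l →ₗ[ℝ] ℝ) {p : Y k l} (hn : ‖p‖ ≤ 1) :
    ∃ v : Y k l, (v : Amb k l) ∈ Vert k l ∧ g p ≤ g v := by
  obtain ⟨G, hG⟩ := LinearMap.exists_extend g
  have hG' : ∀ q : Y k l, G q = g q := fun q => by rw [← hG]; rfl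
  obtain ⟨v, hv, hle⟩ := (G.convexOn (convex_convexHull ℝ (Vert k l))).exists_ge_of_mem_convexHull
    (subset_convexHull ℝ _) (ball_subset p.2 hn)
  refine ⟨⟨v, hv.1⟩, hv, ?_⟩
  rw [← hG', ← hG']
  exact hle

end Pool.Agent.H939R3.Join
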