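import Pool.Agent.H939R3.JoinSpace

/-!
# Numerical index, dimension and a Euclidean structure for the spaces `Y k l`
-/

set_option autoImplicit false

open Set

namespace Pool.Agent.H939R3.Join

variable {k l : ℕ}

lemma norm_vert {v : Y k l} (hv : (v : Amb k l) ∈ Vert k l) : ‖v‖ = 1 := by
  have h1 : ‖(v : Amb k l)‖ ≤ 1 :=
    (norm_le_iff zero_le_one).2 ⟨hv.2.1.le, fun i j => (hv.2.2.1 i j).le, fun t => (hv.2.2.2 t).le⟩
  have h2 : (1 : ℝ) ≤ ‖(v : Amb k l)‖ := by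
    have h3 := ((norm_le_iff (norm_nonneg (v : Amb k l))).1 le_rfl).1
    rw [hv.2.1] at h3
    exact h3
  exact le_antisymm h1 h2

/-- states from coordinate functionals and vertices -/
lemma state (φ : Y k l →L[ℝ] ℝ) (h1 : ∀ p, |φ p| ≤ ‖p‖)
    (h2 : ∀ v : Y k l, (v : Amb k l) ∈ Vert k l → |φ v| = 1) (T : Y k l →L[ℝ] Y k l) (r : ℝ)
    (p : Y k l) (hp : ‖p‖ ≤ 1) (hlt : r < |φ (T p)|) :
    ∃ u : Y k l, ∃ f : Y k l →L[ℝ] ℝ, ‖u‖ = 1 ∧ ‖f‖ = 1 ∧ f u = 1 ∧ r < |f (T u)| := by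
  obtain ⟨v, hv, hle⟩ : ∃ v : Y k l, (v : Amb k l) ∈ Vert k l ∧ |φ (T p)| ≤ |φ (T v)| := by
    rcases abs_choice (φ (T p)) with h | h
    · obtain ⟨v, hv, hle⟩ := exists_vert ((φ.comp T : Y k l →L[ℝ] ℝ) : Y k l →ₗ[ℝ] ℝ) hp
      refine ⟨v, hv, ?_⟩
      rw [h]
      exact le_trans hle (le_abs_self _)
    · obtain ⟨v, hv, hle⟩ := exists_vert ((-(φ.comp T) : Y k l →L[ℝ] ℝ) : Y k l →ₗ[ℝ] ℝ) hp
      refine ⟨v, hv, ?_⟩
      rw [h]
      exact le_trans hle (neg_le_abs _)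
  have hv1 := norm_vert hv
  have hφv := h2 v hv
  have hsq : φ v * φ v = 1 := by rw [← abs_mul_abs_self, hφv, one_mul]
  refine ⟨v, (φ v) • φ, hv1, ?_, ?_, ?_⟩
  · apply le_antisymm
    · refine ContinuousLinearMap.opNorm_le_bound _ zero_le_one fun q => ?_
      rw [ContinuousLinearMap.smul_apply, smul_eq_mul, Real.norm_eq_abs, abs_mul, hφv]
      linarith [h1 q]
    · have := ((φ v) • φ).le_opNorm v
      rw [ContinuousLinearMap.smul_apply, smul_eq_mul, hsq, hv1, mul_one] at this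
      simpa using this
  · rw [ContinuousLinearMap.smul_apply, smul_eq_mul, hsq]
  · rw [ContinuousLinearMap.smul_apply, smul_eq_mul, abs_mul, hφv, one_mul]
    exact lt_of_lt_of_le hlt hle

/-- the space `X` has numerical index one: the numerical radius of every operator is its norm -/
def NumIndexOne (X : Type) [NormedAddCommGroup X] [NormedSpace ℝ X] : Prop :=
  ∀ T : X →L[ℝ] X, ∀ r : ℝ, r < ‖T‖ →
    ∃ u : X, ∃ f : X →L[ℝ] ℝ, ‖u‖ = 1 ∧ ‖f‖ = 1 ∧ f u = 1 ∧ r < |f (T u)|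

theorem numIndexOne : NumIndexOne (Y k l) := by
  intro T r hr
  by_contra hcon
  let φ0 : Y k l →L[ℝ] ℝ := (ContinuousLinearMap.fst ℝ ℝ _).comp (Y k l).subtypeL
  let φy : Fin k → Fin 3 → (Y k l →L[ℝ] ℝ) := fun i j =>
    (ContinuousLinearMap.proj (R := ℝ) (φ := fun _ : Fin 3 => ℝ) j).comp
      ((ContinuousLinearMap.proj (R := ℝ) (φ := fun _ : Fin k => Fin 3 → ℝ) i).comp
        ((ContinuousLinearMap.fst ℝ (Fin k → Fin 3 → ℝ) (Fin l → ℝ)).comp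
          ((ContinuousLinearMap.snd ℝ ℝ _).comp (Y k l).subtypeL)))
  let φz : Fin l → (Y k l →L[ℝ] ℝ) := fun t =>
    (ContinuousLinearMap.proj (R := ℝ) (φ := fun _ : Fin l => ℝ) t).comp
      ((ContinuousLinearMap.snd ℝ (Fin k → Fin 3 → ℝ) (Fin l → ℝ)).comp
          ((ContinuousLinearMap.snd ℝ ℝ _).comp (Y k l).subtypeL))
  have hall : ∀ φ : Y k l →L[ℝ] ℝ, (∀ p, |φ p| ≤ ‖p‖) →
      (∀ v : Y k l, (v : Amb k l) ∈ Vert k l → |φ v| = 1) → ∀ p : Y k l, ‖p‖ ≤ 1 →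
      |φ (T p)| ≤ r := by
    intro φ h1 h2 p hp
    by_contra hlt
    exact hcon (state φ h1 h2 T r p hp (not_le.1 hlt))
  have hn : ∀ p : Y k l, ‖(p : Amb k l)‖ ≤ ‖p‖ := fun p => le_rfl
  have hb : ∀ p : Y k l, ‖p‖ ≤ 1 → |(T p : Amb k l).1| ≤ r ∧
      (∀ i j, |(T p : Amb k l).2.1 i j| ≤ r) ∧ ∀ t, |(T p : Amb k l).2.2 t| ≤ r := by
    intro p hp
    refine ⟨hall φ0 (fun q => ((norm_le_iff (norm_nonneg q)).1 (hn q)).1) (fun v hv => hv.2.1) p hp,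
      fun i j => hall (φy i j) (fun q => ((norm_le_iff (norm_nonneg q)).1 (hn q)).2.1 i j)
        (fun v hv => hv.2.2.1 i j) p hp,
      fun t => hall (φz t) (fun q => ((norm_le_iff (norm_nonneg q)).1 (hn q)).2.2 t)
        (fun v hv => hv.2.2.2 t) p hp⟩
  have hr0 : 0 ≤ r := le_trans (abs_nonneg _) (hb 0 (by simp)).1
  have : ‖T‖ ≤ r := by
    refine ContinuousLinearMap.opNorm_le_of_unit_norm hr0 fun p hp => ?_
    exact (norm_le_iff hr0).2 (hb p hp.le)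
  linarith

/-- coordinates of the space -/
def coord : Y k l ≃ₗ[ℝ] ℝ × (Fin k → ℝ × ℝ) × (Fin l → ℝ) where
  toFun p := (p.1.1, fun i => (p.1.2.1 i 0, p.1.2.1 i 1), p.1.2.2)
  map_add' p q := rfl
  map_smul' c p := rfl
  invFun a := ⟨(a.1, fun i => ![(a.2.1 i).1, (a.2.1 i).2, a.1 - (a.2.1 i).1 - (a.2.1 i).2], a.2.2), by
    intro i
    simp⟩
  left_inv p := by
    apply Subtype.ext
    have h := p.2
    refine Prod.ext rfl (Prod.ext ?_ rfl)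
    funext i j
    have hi : p.1.2.1 i 0 + p.1.2.1 i 1 + p.1.2.1 i 2 = p.1.1 := h i
    fin_cases j
    · rfl
    · rfl
    · show p.1.1 - p.1.2.1 i 0 - p.1.2.1 i 1 = p.1.2.1 i 2
      linarith
  right_inv a := rfl

theorem finrank_Y : Module.finrank ℝ (Y k l) = 2 * k + 1 + l := by
  rw [LinearEquiv.finrank_eq (coord (k := k) (l := l))]
  simp only [Module.finrank_prod, Module.finrank_self, Module.finrank_pi_fintype, Finset.sum_const,
    Finset.card_univ, Fintype.card_fin, smul_eq_mul, Module.finrank_fintype_fun_eq_card]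
  ring

/-- index set of the Euclidean coordinates -/
abbrev Ix (k l : ℕ) : Type := Unit ⊕ (Fin k × Fin 2) ⊕ Fin l

/-- Euclidean coordinates -/
noncomputable def B (c0 c1 c2 : ℝ) : Y k l →ₗ[ℝ] (Ix k l → ℝ) where
  toFun p := Sum.elim (fun _ => c0 * p.1.1) (Sum.elim
    (fun q => if q.2 = 0 then c1 * (p.1.2.1 q.1 0 - p.1.2.1 q.1 1) else
      c2 * (p.1.2.1 q.1 0 + p.1.2.1 q.1 1 - 2 * p.1.2.1 q.1 2)) (fun t => p.1.2.2 t))
  map_add' p q := by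
    funext x
    rcases x with _ | ⟨i, j⟩ | t
    · simp only [Sum.elim_inl, Submodule.coe_add, Prod.fst_add, Pi.add_apply]; ring
    · simp only [Sum.elim_inl, Sum.elim_inr, Submodule.coe_add, Prod.fst_add, Prod.snd_add,
        Pi.add_apply]
      split_ifs <;> ring
    · simp only [Sum.elim_inr, Submodule.coe_add, Prod.snd_add, Pi.add_apply]
  map_smul' c p := by
    funext x
    rcases x with _ | ⟨i, j⟩ | t
    · simp only [Sum.elim_inl, Submodule.coe_smul, Prod.smul_fst, Pi.smul_apply, smul_eq_mul,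
        RingHom.id_apply]; ring
    · simp only [Sum.elim_inl, Sum.elim_inr, Submodule.coe_smul, Prod.smul_fst, Prod.smul_snd,
        Pi.smul_apply, smul_eq_mul, RingHom.id_apply]
      split_ifs <;> ring
    · simp only [Sum.elim_inr, Submodule.coe_smul, Prod.smul_snd, Pi.smul_apply, smul_eq_mul,
        RingHom.id_apply]

/-- the map into Euclidean space -/
noncomputable def A (c0 c1 c2 : ℝ) : Y k l →ₗ[ℝ] EuclideanSpace ℝ (Ix k l) :=
  (WithLp.linearEquiv 2 ℝ (Ix k l → ℝ)).symm.toLinearMap.comp (B c0 c1 c2)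

/-- contribution of a block -/
noncomputable def blk (y : Fin 3 → ℝ) : ℝ := (y 0 - y 1) ^ 2 / 2 + (y 0 + y 1 - 2 * y 2) ^ 2 / 6

lemma norm_A_sq {κ a : ℝ} (hκ : 0 ≤ κ) (ha : 0 ≤ a) (p : Y k l) :
    ‖A (√(κ * a)) (√(κ / 2)) (√(κ / 6)) p‖ ^ 2 =
      κ * (a * p.1.1 ^ 2 + ∑ i, blk (p.1.2.1 i)) + ∑ t, (p.1.2.2 t) ^ 2 := by
  have e0 : √(κ * a) ^ 2 = κ * a := Real.sq_sqrt (by positivity)
  have e1 : √(κ / 2) ^ 2 = κ / 2 := Real.sq_sqrt (by positivity)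
  have e2 : √(κ / 6) ^ 2 = κ / 6 := Real.sq_sqrt (by positivity)
  rw [EuclideanSpace.norm_sq_eq, Fintype.sum_sum_type, Fintype.sum_sum_type,
    Fintype.sum_prod_type]
  simp only [Fin.sum_univ_two]
  have h1 : ∀ x, (A (√(κ * a)) (√(κ / 2)) (√(κ / 6)) p) x =
    B (√(κ * a)) (√(κ / 2)) (√(κ / 6)) p x := fun x => rfl
  simp only [h1, Real.norm_eq_abs, sq_abs]
  simp only [B, LinearMap.coe_mk, AddHom.coe_mk, Sum.elim_inl, Sum.elim_inr, Finset.univ_unique,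
    Finset.sum_const, Finset.card_singleton, one_smul, if_true, mul_pow, e0, e1, e2,
    show ((1 : Fin 2) = 0) = False from by simp, if_false]
  rw [mul_add, Finset.mul_sum, ← add_assoc]
  congr 1
  congr 1
  · ring
  · apply Finset.sum_congr rfl
    intro i _
    unfold blk
    ring

lemma blk_eq (y : Fin 3 → ℝ) :
    blk y = y 0 ^ 2 + y 1 ^ 2 + y 2 ^ 2 - (y 0 + y 1 + y 2) ^ 2 / 3 := by
  unfold blk; ring

lemma blk_nonneg (y : Fin 3 → ℝ) : 0 ≤ blk y := by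
  unfold blk; positivity

lemma blk_le {y : Fin 3 → ℝ} (hy : ∀ j, |y j| ≤ 1) :
    blk y ≤ 2 + 2 * (y 0 + y 1 + y 2) ^ 2 / 3 := by
  have h0 := abs_le.1 (hy 0)
  have h1 := abs_le.1 (hy 1)
  have h2 := abs_le.1 (hy 2)
  have e1 : 0 ≤ (1 - y 0) * (1 - y 1) * (1 - y 2) :=
    mul_nonneg (mul_nonneg (by linarith) (by linarith)) (by linarith)
  have e2 : 0 ≤ (1 + y 0) * (1 + y 1) * (1 + y 2) :=
    mul_nonneg (mul_nonneg (by linarith) (by linarith)) (by linarith)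
  rw [blk_eq]
  nlinarith

lemma key_ineq {a κ : ℝ} (ha : 0 < a) (hκ : κ = 1 / (9 * a) + 2 / 3) (x y z : ℝ) :
    x ^ 2 ≤ κ * (a * (x + y + z) ^ 2 + (x ^ 2 + y ^ 2 + z ^ 2 - (x + y + z) ^ 2 / 3)) := by
  have e : κ * (a * (x + y + z) ^ 2 + (x ^ 2 + y ^ 2 + z ^ 2 - (x + y + z) ^ 2 / 3)) - x ^ 2 =
      (2 * a * (x + y + z) - (x - (x + y + z) / 3)) ^ 2 / (6 * a) + κ * (y - z) ^ 2 / 2 := by
    rw [hκ]; field_simp; ring
  have h1 : 0 ≤ (2 * a * (x + y + z) - (x - (x + y + z) / 3)) ^ 2 / (6 * a) := by positivity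
  have h2 : 0 ≤ κ * (y - z) ^ 2 / 2 := by rw [hκ]; positivity
  linarith

/-- a good Euclidean structure -/
theorem exists_A (k l : ℕ) {a : ℝ} (ha : 4 / 3 ≤ a) : ∃ S : Y k l →ₗ[ℝ] EuclideanSpace ℝ (Ix k l),
    (∀ p, ‖p‖ ≤ 1 → ‖S p‖ ^ 2 ≤ (1 / (9 * a) + 2 / 3) * (a + k * (8 / 3)) + l) ∧
    ∀ p, ‖p‖ ≤ ‖S p‖ := by
  have ha0 : 0 < a := by linarith
  obtain ⟨κ, hκ⟩ : ∃ κ : ℝ, κ = 1 / (9 * a) + 2 / 3 := ⟨_, rfl⟩
  have hκ0 : 0 < κ := by rw [hκ]; positivity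
  rw [← hκ]
  refine ⟨A (√(κ * a)) (√(κ / 2)) (√(κ / 6)), fun p hp => ?_, fun p => ?_⟩
  · rw [norm_A_sq hκ0.le ha0.le]
    have hp' : ‖(p : Amb k l)‖ ≤ 1 := hp
    obtain ⟨h1, h2, h3⟩ := (norm_le_iff zero_le_one).1 hp'
    have hf : p.1.1 ^ 2 ≤ 1 := by rw [sq_le_one_iff_abs_le_one]; exact h1
    have hb : ∀ i, blk (p.1.2.1 i) ≤ 8 / 3 := by
      intro i
      have h4 := blk_le (h2 i)
      have h5 : p.1.2.1 i 0 + p.1.2.1 i 1 + p.1.2.1 i 2 = p.1.1 := p.2 i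
      rw [h5] at h4
      linarith
    have hsb : ∑ i, blk (p.1.2.1 i) ≤ k * (8 / 3) := by
      calc ∑ i, blk (p.1.2.1 i) ≤ ∑ _i : Fin k, (8 / 3 : ℝ) := Finset.sum_le_sum fun i _ => hb i
        _ = k * (8 / 3) := by rw [Finset.sum_const, Finset.card_univ, Fintype.card_fin, nsmul_eq_mul]
    have hsz : ∑ t, (p.1.2.2 t) ^ 2 ≤ (l : ℝ) := by
      calc ∑ t, (p.1.2.2 t) ^ 2 ≤ ∑ _t : Fin l, (1 : ℝ) := Finset.sum_le_sum fun t _ => by
            rw [sq_le_one_iff_abs_le_one]; exact h3 t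
        _ = l := by simp
    have h6 : a * p.1.1 ^ 2 ≤ a := by nlinarith
    have h7 : κ * (a * p.1.1 ^ 2 + ∑ i, blk (p.1.2.1 i)) ≤ κ * (a + k * (8 / 3)) :=
      mul_le_mul_of_nonneg_left (by linarith) hκ0.le
    linarith
  · have hn := norm_A_sq hκ0.le ha0.le p
    set r := ‖A (√(κ * a)) (√(κ / 2)) (√(κ / 6)) p‖ with hr
    have hr0 : 0 ≤ r := norm_nonneg _
    have hz0 : 0 ≤ ∑ t, (p.1.2.2 t) ^ 2 := Finset.sum_nonneg fun t _ => sq_nonneg _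
    have hb0 : 0 ≤ ∑ i, blk (p.1.2.1 i) := Finset.sum_nonneg fun i _ => blk_nonneg _
    have hκa : 1 ≤ κ * a := by
      rw [hκ]
      have : (1 / (9 * a) + 2 / 3) * a = 1 / 9 + 2 / 3 * a := by field_simp
      rw [this]; linarith
    have hf0 : 0 ≤ p.1.1 ^ 2 := sq_nonneg _
    show ‖(p : Amb k l)‖ ≤ r
    refine (norm_le_iff hr0).2 ⟨?_, fun i j => ?_, fun t => ?_⟩
    · apply abs_le_of_sq_le_sq _ hr0
      have e1 : p.1.1 ^ 2 ≤ κ * a * p.1.1 ^ 2 := by nlinarith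
      have e2 : 0 ≤ κ * ∑ i, blk (p.1.2.1 i) := mul_nonneg hκ0.le hb0
      rw [hn]
      linarith
    · apply abs_le_of_sq_le_sq _ hr0
      have e1 : blk (p.1.2.1 i) ≤ ∑ i, blk (p.1.2.1 i) :=
        Finset.single_le_sum (f := fun i => blk (p.1.2.1 i)) (fun i _ => blk_nonneg _)
          (Finset.mem_univ i)
      have e2 : κ * (a * p.1.1 ^ 2 + blk (p.1.2.1 i)) ≤
          κ * (a * p.1.1 ^ 2 + ∑ i, blk (p.1.2.1 i)) :=
        mul_le_mul_of_nonneg_left (by linarith) hκ0.le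
      have h5 : p.1.2.1 i 0 + p.1.2.1 i 1 + p.1.2.1 i 2 = p.1.1 := p.2 i
      have e3 : (p.1.2.1 i j) ^ 2 ≤ κ * (a * p.1.1 ^ 2 + blk (p.1.2.1 i)) := by
        rw [← h5, blk_eq]
        fin_cases j
        · exact key_ineq ha0 hκ _ _ _
        · refine (key_ineq ha0 hκ (p.1.2.1 i 1) (p.1.2.1 i 0) (p.1.2.1 i 2)).trans (le_of_eq ?_)
          ring
        · refine (key_ineq ha0 hκ (p.1.2.1 i 2) (p.1.2.1 i 0) (p.1.2.1 i 1)).trans (le_of_eq ?_)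
          ring
      rw [hn]
      linarith
    · apply abs_le_of_sq_le_sq _ hr0
      have e1 : (p.1.2.2 t) ^ 2 ≤ ∑ t, (p.1.2.2 t) ^ 2 :=
        Finset.single_le_sum (f := fun t => (p.1.2.2 t) ^ 2) (fun t _ => sq_nonneg _)
          (Finset.mem_univ t)
      have e2 : 0 ≤ κ * (a * p.1.1 ^ 2 + ∑ i, blk (p.1.2.1 i)) :=
        mul_nonneg hκ0.le (add_nonneg (mul_nonneg ha0.le hf0) hb0)
      rw [hn]
      linarith

theorem exists_T (k l m : ℕ) (hm : 2 * k + 1 + l = m) {a : ℝ} (ha : 4 / 3 ≤ a) :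
    ∃ T : Y k l ≃L[ℝ] EuclideanSpace ℝ (Fin m),
      ‖(T : Y k l →L[ℝ] EuclideanSpace ℝ (Fin m))‖ *
        ‖(T.symm : EuclideanSpace ℝ (Fin m) →L[ℝ] Y k l)‖ ≤
      √((1 / (9 * a) + 2 / 3) * (a + k * (8 / 3)) + l) := by
  obtain ⟨S, hS1, hS2⟩ := exists_A k l ha
  have hinj : Function.Injective S := by
    rw [injective_iff_map_eq_zero]
    intro p hp
    have := hS2 p
    rw [hp, norm_zero] at this
    exact norm_le_zero_iff.1 this
  have hcard : Fintype.card (Ix k l) = m := by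
    rw [← hm]
    simp only [Ix, Fintype.card_sum, Fintype.card_unit, Fintype.card_prod, Fintype.card_fin]
    ring
  have hfin : Module.finrank ℝ (Y k l) = Module.finrank ℝ (EuclideanSpace ℝ (Ix k l)) := by
    rw [finrank_Y, finrank_euclideanSpace, hcard, hm]
  let S1 : Y k l ≃L[ℝ] EuclideanSpace ℝ (Ix k l) :=
    (LinearEquiv.ofInjectiveOfFinrankEq S hinj hfin).toContinuousLinearEquiv
  have hS1' : ∀ p, S1 p = S p := fun p => rfl
  let e : Ix k l ≃ Fin m := Fintype.equivFinOfCardEq hcard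
  let R := LinearIsometryEquiv.piLpCongrLeft 2 ℝ ℝ e
  let T : Y k l ≃L[ℝ] EuclideanSpace ℝ (Fin m) := S1.trans R.toContinuousLinearEquiv
  have hT : ∀ p, ‖T p‖ = ‖S p‖ := by
    intro p
    show ‖R (S1 p)‖ = ‖S p‖
    rw [LinearIsometryEquiv.norm_map, hS1']
  have hE : 0 ≤ (1 / (9 * a) + 2 / 3) * (a + k * (8 / 3)) + (l : ℝ) := by
    have : 0 < a := by linarith
    positivity
  refine ⟨T, ?_⟩
  have h1 : ‖(T : Y k l →L[ℝ] EuclideanSpace ℝ (Fin m))‖ ≤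
      √((1 / (9 * a) + 2 / 3) * (a + k * (8 / 3)) + l) := by
    refine ContinuousLinearMap.opNorm_le_of_unit_norm (Real.sqrt_nonneg _) fun p hp => ?_
    rw [ContinuousLinearEquiv.coe_coe, hT]
    exact Real.le_sqrt_of_sq_le (hS1 p hp.le)
  have h2 : ‖(T.symm : EuclideanSpace ℝ (Fin m) →L[ℝ] Y k l)‖ ≤ 1 := by
    refine ContinuousLinearMap.opNorm_le_bound _ zero_le_one fun y => ?_
    rw [ContinuousLinearEquiv.coe_coe, one_mul]
    have h3 := hS2 (T.symm y)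
    rw [← hT, ContinuousLinearEquiv.apply_symm_apply] at h3
    exact h3
  calc _ ≤ √((1 / (9 * a) + 2 / 3) * (a + k * (8 / 3)) + l) * 1 :=
        mul_le_mul h1 h2 (ContinuousLinearMap.opNorm_nonneg _) (Real.sqrt_nonneg _)
    _ = _ := mul_one _

end Pool.Agent.H939R3.Join
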