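import Pool.Agent.H939R3.NumIdxCore

set_option autoImplicit false

open Finset Real
open scoped RealInnerProductSpace

namespace H939NI

/-- The Sauer–Shelah count: a set `V` of vectors pairing to `±1` with a set spanning the space is finite, and its
cardinality is at most `(m+1)^{⌊(αβ)²⌋}`. -/
lemma card_bound {m : ℕ} (V W : Set (EuclideanSpace ℝ (Fin m))) (α β : ℝ) (hα0 : 0 ≤ α) (hβ0 : 0 ≤ β)
    (hV : ∀ v ∈ V, ‖v‖ ≤ α) (hW : ∀ w ∈ W, ‖w‖ ≤ β)
    (hp : ∀ v ∈ V, ∀ w ∈ W, |⟪v, w⟫| = 1) (hspan : Submodule.span ℝ W = ⊤) :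
    V.Finite ∧ V.ncard ≤ (m + 1) ^ ⌊(α * β) ^ 2⌋₊ := by
  classical
  -- a basis inside `W`
  obtain ⟨n, hnm, b, hbW, hbspan⟩ : ∃ n : ℕ, n = m ∧ ∃ b : Fin n → EuclideanSpace ℝ (Fin m),
      (∀ i, b i ∈ W) ∧ Submodule.span ℝ (Set.range b) = ⊤ := by
    obtain ⟨b, hbW, hbspan, _⟩ := Submodule.exists_fun_fin_finrank_span_eq ℝ W
    exact ⟨_, by rw [hspan]; simp, b, hbW, hbspan.trans hspan⟩
  -- the pattern map
  let φ : EuclideanSpace ℝ (Fin m) → Finset (Fin n) := fun v => Finset.univ.filter fun i => ⟪v, b i⟫ = 1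
  have hval : ∀ v ∈ V, ∀ i, ⟪v, b i⟫ = 1 ∨ ⟪v, b i⟫ = -1 := by
    intro v hv i
    have := hp v hv (b i) (hbW i)
    rcases abs_cases ⟪v, b i⟫ with h | h
    · left; rw [← h.1]; exact this
    · right
      rw [h.1] at this
      linarith
  have hinj : Set.InjOn φ V := by
    intro v hv v' hv' h
    have h1 : ∀ i, ⟪v, b i⟫ = ⟪v', b i⟫ := by
      intro i
      have h2 : i ∈ φ v ↔ i ∈ φ v' := by rw [h]
      simp only [φ, Finset.mem_filter, Finset.mem_univ, true_and] at h2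
      rcases hval v hv i with h3 | h3 <;> rcases hval v' hv' i with h4 | h4
      · rw [h3, h4]
      · exact absurd (h2.mp h3) (by rw [h4]; norm_num)
      · exact absurd (h2.mpr h4) (by rw [h3]; norm_num)
      · rw [h3, h4]
    have h2 : ∀ x ∈ Submodule.span ℝ (Set.range b), ⟪v - v', x⟫ = 0 := by
      intro x hx
      induction hx using Submodule.span_induction with
      | mem x hx =>
        obtain ⟨i, rfl⟩ := hx
        rw [inner_sub_left, h1 i, sub_self]
      | zero => simp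
      | add x y _ _ hx hy => rw [inner_add_right, hx, hy, add_zero]
      | smul a x _ hx => rw [inner_smul_right, hx, mul_zero]
    have h3 : ⟪v - v', v - v'⟫ = 0 := h2 _ (by rw [hbspan]; trivial)
    exact sub_eq_zero.mp (inner_self_eq_zero.mp h3)
  have hfin : V.Finite := Set.Finite.of_finite_image (Set.toFinite _) hinj
  refine ⟨hfin, ?_⟩
  -- the family of patterns
  set A : Finset (Finset (Fin n)) := (Set.toFinite (φ '' V)).toFinset with hA
  have hAcard : V.ncard = A.card := by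
    rw [hA, ← Set.ncard_eq_toFinset_card _ _]
    exact (Set.ncard_image_of_injOn hinj).symm
  have hmemA : ∀ u, u ∈ A ↔ ∃ v ∈ V, φ v = u := by
    intro u
    rw [hA, Set.Finite.mem_toFinset]
    rfl
  -- shattered sets are small
  have hsh : ∀ S : Finset (Fin n), A.Shatters S → (S.card : ℝ) ≤ (α * β) ^ 2 := by
    intro S hS
    obtain ⟨ε, hε, hεn⟩ := exists_signs b S
    have hcb : ∑ i ∈ S, ‖b i‖ ^ 2 ≤ S.card * β ^ 2 := by
      calc ∑ i ∈ S, ‖b i‖ ^ 2 ≤ ∑ i ∈ S, β ^ 2 :=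
            Finset.sum_le_sum fun i _ => pow_le_pow_left₀ (norm_nonneg _) (hW _ (hbW i)) 2
        _ = S.card * β ^ 2 := by simp
    obtain ⟨u, huA, hu⟩ := hS (t := S.filter fun i => ε i = 1) (Finset.filter_subset _ _)
    obtain ⟨v, hv, rfl⟩ := (hmemA u).mp huA
    have hvi : ∀ i ∈ S, ⟪v, b i⟫ = ε i := by
      intro i hi
      have h1 : i ∈ S ∩ φ v ↔ i ∈ S.filter fun i => ε i = 1 := by rw [hu]
      simp only [φ, Finset.mem_inter, Finset.mem_filter, Finset.mem_univ, true_and, hi] at h1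
      rcases hε i with h2 | h2
      · rw [h2]; exact h1.mpr h2
      · rcases hval v hv i with h3 | h3
        · exact absurd (h1.mp h3) (by rw [h2]; norm_num)
        · rw [h2, h3]
    have hcard : ⟪v, ∑ i ∈ S, ε i • b i⟫ = S.card := by
      rw [inner_sum]
      have : ∀ i ∈ S, ⟪v, ε i • b i⟫ = 1 := by
        intro i hi
        rw [inner_smul_right, hvi i hi]
        rcases hε i with h2 | h2 <;> rw [h2] <;> norm_num
      rw [Finset.sum_congr rfl this]
      simp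
    have hle : (S.card : ℝ) ≤ α * ‖∑ i ∈ S, ε i • b i‖ := by
      rw [← hcard]
      refine (real_inner_le_norm _ _).trans ?_
      exact mul_le_mul_of_nonneg_right (hV v hv) (norm_nonneg _)
    have hsq : (S.card : ℝ) ^ 2 ≤ α ^ 2 * (S.card * β ^ 2) := by
      calc (S.card : ℝ) ^ 2 ≤ (α * ‖∑ i ∈ S, ε i • b i‖) ^ 2 :=
            pow_le_pow_left₀ (Nat.cast_nonneg _) hle 2
        _ = α ^ 2 * ‖∑ i ∈ S, ε i • b i‖ ^ 2 := by ring
        _ ≤ α ^ 2 * (S.card * β ^ 2) := mul_le_mul_of_nonneg_left (hεn.trans hcb) (sq_nonneg _)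
    rcases Nat.eq_zero_or_pos S.card with h0 | h0
    · rw [h0]; simp; positivity
    · have h0' : (0 : ℝ) < S.card := by exact_mod_cast h0
      have : (S.card : ℝ) * S.card ≤ (α * β) ^ 2 * S.card := by nlinarith
      exact le_of_mul_le_mul_right this h0'
  have hvc : A.vcDim ≤ ⌊(α * β) ^ 2⌋₊ := by
    unfold Finset.vcDim
    refine Finset.sup_le fun S hS => ?_
    exact Nat.le_floor (hsh S (Finset.mem_shatterer.mp hS))
  rw [hAcard]
  calc A.card ≤ A.shatterer.card := A.card_le_card_shatterer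
    _ ≤ ∑ k ∈ Finset.Iic A.vcDim, (Fintype.card (Fin n)).choose k := Finset.card_shatterer_le_sum_vcDim
    _ ≤ ∑ k ∈ Finset.Iic ⌊(α * β) ^ 2⌋₊, (Fintype.card (Fin n)).choose k :=
        Finset.sum_le_sum_of_subset (Finset.Iic_subset_Iic.mpr hvc)
    _ = ∑ k ∈ Finset.Iic ⌊(α * β) ^ 2⌋₊, m.choose k := by rw [Fintype.card_fin, hnm]
    _ ≤ (m + 1) ^ ⌊(α * β) ^ 2⌋₊ := sum_choose_le m _

/-- Core inequality. -/
theorem core {m : ℕ} (hm : 1 ≤ m) (V W : Set (EuclideanSpace ℝ (Fin m))) (α β : ℝ) (hα0 : 0 < α) (hβ0 : 0 < β)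
    (hV : ∀ v ∈ V, ‖v‖ ≤ α) (hW : ∀ w ∈ W, ‖w‖ ≤ β)
    (hp : ∀ v ∈ V, ∀ w ∈ W, |⟪v, w⟫| = 1)
    (hdual : ∀ g : EuclideanSpace ℝ (Fin m), ∃ v ∈ V, ∃ w ∈ W, ‖g‖ ^ 2 ≤ |⟪g, v⟫| * |⟪g, w⟫|) :
    (m : ℝ) ≤ 6 * Real.log (m + 1) * (α * β) ^ 3 := by
  classical
  set d := α * β with hd
  have hd0 : 0 < d := mul_pos hα0 hβ0
  have hd1 : 1 ≤ d := by
    obtain ⟨v, hv, w, hw, _⟩ := hdual 0
    rw [← hp v hv w hw]
    refine (abs_real_inner_le_norm v w).trans ?_
    exact mul_le_mul (hV v hv) (hW w hw) (norm_nonneg _) hα0.le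
  -- spanning
  have hspan : ∀ (A : Set (EuclideanSpace ℝ (Fin m))),
      (∀ g : EuclideanSpace ℝ (Fin m), (∀ a ∈ A, ⟪g, a⟫ = 0) → g = 0) → Submodule.span ℝ A = ⊤ := by
    intro A hA
    rw [← Submodule.orthogonal_eq_bot_iff, Submodule.eq_bot_iff]
    intro g hg
    refine hA g fun a ha => ?_
    rw [real_inner_comm]
    exact (Submodule.mem_orthogonal _ g).mp hg a (Submodule.subset_span ha)
  have hsW : Submodule.span ℝ W = ⊤ := by
    refine hspan W fun g hg => ?_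
    obtain ⟨v, hv, w, hw, h⟩ := hdual g
    rw [hg w hw, abs_zero, mul_zero] at h
    have : ‖g‖ = 0 := by nlinarith [norm_nonneg g]
    exact norm_eq_zero.mp this
  have hsV : Submodule.span ℝ V = ⊤ := by
    refine hspan V fun g hg => ?_
    obtain ⟨v, hv, w, hw, h⟩ := hdual g
    rw [hg v hv, abs_zero, zero_mul] at h
    have : ‖g‖ = 0 := by nlinarith [norm_nonneg g]
    exact norm_eq_zero.mp this
  obtain ⟨hVf, hVc⟩ := card_bound V W α β hα0.le hβ0.le hV hW hp hsW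
  obtain ⟨hWf, hWc⟩ := card_bound W V β α hβ0.le hα0.le hW hV
    (fun w hw v hv => by rw [real_inner_comm]; exact hp v hv w hw) hsV
  rw [mul_comm β α, ← hd] at hWc
  rw [← hd] at hVc
  set s := ⌊d ^ 2⌋₊ with hs
  have hsd : (s : ℝ) ≤ d ^ 2 := Nat.floor_le (by positivity)
  -- the common family
  set C : Finset (EuclideanSpace ℝ (Fin m)) :=
    (hVf.toFinset.image fun v => α⁻¹ • v) ∪ (hWf.toFinset.image fun w => β⁻¹ • w) with hC
  have hCcard : C.card ≤ 2 * (m + 1) ^ s := by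
    calc C.card ≤ (hVf.toFinset.image fun v => α⁻¹ • v).card + (hWf.toFinset.image fun w => β⁻¹ • w).card :=
          Finset.card_union_le _ _
      _ ≤ hVf.toFinset.card + hWf.toFinset.card := Nat.add_le_add Finset.card_image_le Finset.card_image_le
      _ = V.ncard + W.ncard := by
          rw [Set.ncard_eq_toFinset_card V hVf, Set.ncard_eq_toFinset_card W hWf]
      _ ≤ (m + 1) ^ s + (m + 1) ^ s := Nat.add_le_add hVc hWc
      _ = 2 * (m + 1) ^ s := by ring
  have hCne : C.Nonempty := by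
    obtain ⟨v, hv, w, hw, _⟩ := hdual 0
    exact ⟨α⁻¹ • v, Finset.mem_union_left _ (Finset.mem_image.mpr ⟨v, hVf.mem_toFinset.mpr hv, rfl⟩)⟩
  have hC1 : ∀ c ∈ C, ‖c‖ ≤ 1 := by
    intro c hc
    rcases Finset.mem_union.mp hc with h | h
    · obtain ⟨v, hv, rfl⟩ := Finset.mem_image.mp h
      rw [norm_smul, norm_inv, Real.norm_of_nonneg hα0.le, inv_mul_le_iff₀ hα0, mul_one]
      exact hV v (hVf.mem_toFinset.mp hv)
    · obtain ⟨w, hw, rfl⟩ := Finset.mem_image.mp h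
      rw [norm_smul, norm_inv, Real.norm_of_nonneg hβ0.le, inv_mul_le_iff₀ hβ0, mul_one]
      exact hW w (hWf.mem_toFinset.mp hw)
  obtain ⟨e, he⟩ := exists_good_sign C hCne hC1
  set L := Real.log (2 * C.card) with hL
  have hcard1 : (1 : ℝ) ≤ C.card := by exact_mod_cast hCne.card_pos
  have hLpos : 0 < L := Real.log_pos (by linarith)
  obtain ⟨v, hv, w, hw, h⟩ := hdual (sv e)
  rw [sv_norm] at h
  have hv1 : |⟪sv e, v⟫| ≤ α * Real.sqrt (2 * L) := by
    have := he (α⁻¹ • v) (Finset.mem_union_left _ (Finset.mem_image.mpr ⟨v, hVf.mem_toFinset.mpr hv, rfl⟩))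
    rw [inner_smul_right, abs_mul, abs_inv, abs_of_pos hα0, inv_mul_le_iff₀ hα0] at this
    exact this
  have hw1 : |⟪sv e, w⟫| ≤ β * Real.sqrt (2 * L) := by
    have := he (β⁻¹ • w) (Finset.mem_union_right _ (Finset.mem_image.mpr ⟨w, hWf.mem_toFinset.mpr hw, rfl⟩))
    rw [inner_smul_right, abs_mul, abs_inv, abs_of_pos hβ0, inv_mul_le_iff₀ hβ0] at this
    exact this
  have hm1 : (m : ℝ) ≤ d * (2 * L) := by
    calc (m : ℝ) ≤ |⟪sv e, v⟫| * |⟪sv e, w⟫| := h
      _ ≤ (α * Real.sqrt (2 * L)) * (β * Real.sqrt (2 * L)) :=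
          mul_le_mul hv1 hw1 (abs_nonneg _) (by positivity)
      _ = d * (Real.sqrt (2 * L) * Real.sqrt (2 * L)) := by rw [hd]; ring
      _ = d * (2 * L) := by rw [Real.mul_self_sqrt (by linarith)]
  -- bound on L
  have hlogm : Real.log 2 ≤ Real.log (m + 1) := by
    apply Real.log_le_log (by norm_num)
    have : (1 : ℝ) ≤ m := by exact_mod_cast hm
    linarith
  have hlog2 : 0 < Real.log 2 := Real.log_pos (by norm_num)
  have hLle : L ≤ 2 * Real.log 2 + s * Real.log (m + 1) := by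
    have h1 : (2 * C.card : ℝ) ≤ 2 * (2 * (m + 1) ^ s) := by
      have : (C.card : ℝ) ≤ ((2 * (m + 1) ^ s : ℕ) : ℝ) := by exact_mod_cast hCcard
      push_cast at this
      linarith
    calc L ≤ Real.log (2 * (2 * (m + 1) ^ s)) := Real.log_le_log (by linarith) h1
      _ = 2 * Real.log 2 + s * Real.log (m + 1) := by
          rw [Real.log_mul (by norm_num) (by positivity), Real.log_mul (by norm_num) (by positivity),
            Real.log_pow]
          ring
  have hd2 : 1 ≤ d ^ 2 := one_le_pow₀ hd1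
  have hL3 : L ≤ 3 * d ^ 2 * Real.log (m + 1) := by
    have h1 : (s : ℝ) * Real.log (m + 1) ≤ d ^ 2 * Real.log (m + 1) :=
      mul_le_mul_of_nonneg_right hsd (by linarith)
    have h2 : Real.log 2 ≤ d ^ 2 * Real.log (m + 1) := by nlinarith
    nlinarith
  calc (m : ℝ) ≤ d * (2 * L) := hm1
    _ ≤ d * (2 * (3 * d ^ 2 * Real.log (m + 1))) := by
        apply mul_le_mul_of_nonneg_left _ hd0.le
        linarith
    _ = 6 * Real.log (m + 1) * d ^ 3 := by ring

end H939NI
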