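import Mathlib

set_option autoImplicit false

open Finset Real
open scoped RealInnerProductSpace

namespace H939NI

/-- Choice of signs: the signed sum has norm at most the square-sum bound. -/
lemma exists_signs {ι E : Type*} [DecidableEq ι] [NormedAddCommGroup E] [InnerProductSpace ℝ E]
    (b : ι → E) (S : Finset ι) :
    ∃ ε : ι → ℝ, (∀ i, ε i = 1 ∨ ε i = -1) ∧ ‖∑ i ∈ S, ε i • b i‖ ^ 2 ≤ ∑ i ∈ S, ‖b i‖ ^ 2 := by
  induction S using Finset.induction_on with
  | empty => exact ⟨fun _ => 1, fun _ => Or.inl rfl, by simp⟩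
  | insert a S ha ih =>
    obtain ⟨ε, hε, hs⟩ := ih
    set x := ∑ i ∈ S, ε i • b i with hx
    by_cases h : ⟪b a, x⟫ ≤ 0
    · refine ⟨Function.update ε a 1, ?_, ?_⟩
      · intro i
        by_cases hi : i = a
        · subst hi; simp
        · simp [Function.update_of_ne hi, hε i]
      · rw [Finset.sum_insert ha, Finset.sum_insert ha]
        have h1 : ∑ i ∈ S, (Function.update ε a 1) i • b i = x := by
          rw [hx]
          refine Finset.sum_congr rfl fun i hi => ?_
          rw [Function.update_of_ne (ne_of_mem_of_not_mem hi ha)]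
        rw [h1, Function.update_self, one_smul, norm_add_sq_real]
        linarith
    · refine ⟨Function.update ε a (-1), ?_, ?_⟩
      · intro i
        by_cases hi : i = a
        · subst hi; simp
        · simp [Function.update_of_ne hi, hε i]
      · rw [Finset.sum_insert ha, Finset.sum_insert ha]
        have h1 : ∑ i ∈ S, (Function.update ε a (-1)) i • b i = x := by
          rw [hx]
          refine Finset.sum_congr rfl fun i hi => ?_
          rw [Function.update_of_ne (ne_of_mem_of_not_mem hi ha)]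
        rw [h1, Function.update_self, norm_add_sq_real, neg_smul, one_smul, norm_neg, inner_neg_left]
        push Not at h
        linarith

/-- `∑_{k ≤ s} C(m,k) ≤ (m+1)^s`. -/
lemma sum_choose_le (m s : ℕ) : ∑ k ∈ Finset.Iic s, m.choose k ≤ (m + 1) ^ s := by
  have h1 : (m + 1) ^ s = ∑ k ∈ Finset.range (s + 1), m ^ k * s.choose k := by
    rw [add_pow]
    simp
  rw [h1, ← Nat.range_succ_eq_Iic]
  refine Finset.sum_le_sum fun k hk => ?_
  have hk' : k ≤ s := Nat.lt_succ_iff.mp (Finset.mem_range.mp hk)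
  calc m.choose k ≤ m ^ k := Nat.choose_le_pow m k
    _ = m ^ k * 1 := (mul_one _).symm
    _ ≤ m ^ k * s.choose k := Nat.mul_le_mul_left _ (Nat.choose_pos hk')

/-- Sign vectors. -/
noncomputable def sv {m : ℕ} (e : Fin m → Bool) : EuclideanSpace ℝ (Fin m) :=
  WithLp.toLp 2 (fun i => if e i then (1 : ℝ) else -1)

lemma sv_norm {m : ℕ} (e : Fin m → Bool) : ‖sv e‖ ^ 2 = m := by
  rw [EuclideanSpace.norm_sq_eq]
  have : ∀ i : Fin m, ‖(sv e).ofLp i‖ ^ 2 = 1 := by
    intro i
    simp only [sv]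
    split_ifs <;> simp
  rw [Finset.sum_congr rfl (fun i _ => this i)]
  simp

lemma sum_exp {m : ℕ} (t : ℝ) (a : EuclideanSpace ℝ (Fin m)) :
    ∑ e : Fin m → Bool, Real.exp (t * ⟪sv e, a⟫) = ∏ i, (2 * Real.cosh (t * a i)) := by
  have h : ∀ e : Fin m → Bool, Real.exp (t * ⟪sv e, a⟫)
      = ∏ i, Real.exp (t * a i * (if e i then (1 : ℝ) else -1)) := by
    intro e
    rw [← Real.exp_sum]
    congr 1
    rw [PiLp.inner_apply, Finset.mul_sum]
    refine Finset.sum_congr rfl fun i _ => ?_
    simp only [sv]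
    split_ifs <;> simp
  simp_rw [h]
  have h2 := Finset.prod_univ_sum (fun _ : Fin m => (Finset.univ : Finset Bool))
    (fun i (c : Bool) => Real.exp (t * a i * (if c then (1 : ℝ) else -1)))
  rw [Fintype.piFinset_univ] at h2
  rw [← h2]
  refine Finset.prod_congr rfl fun i _ => ?_
  rw [Real.cosh_eq]
  simp
  ring

lemma sum_exp_le {m : ℕ} (t : ℝ) (a : EuclideanSpace ℝ (Fin m)) (ha : ‖a‖ ≤ 1) :
    ∑ e : Fin m → Bool, Real.exp (t * ⟪sv e, a⟫) ≤ 2 ^ m * Real.exp (t ^ 2 / 2) := by
  rw [sum_exp]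
  rw [Finset.prod_mul_distrib]
  have h1 : ∏ i : Fin m, (2 : ℝ) = 2 ^ m := by simp
  rw [h1]
  refine mul_le_mul_of_nonneg_left ?_ (by positivity)
  calc ∏ i, Real.cosh (t * a i) ≤ ∏ i, Real.exp ((t * a i) ^ 2 / 2) :=
        Finset.prod_le_prod (fun i _ => (Real.cosh_pos _).le) (fun i _ => Real.cosh_le_exp_half_sq _)
    _ = Real.exp (∑ i, (t * a i) ^ 2 / 2) := by rw [Real.exp_sum]
    _ ≤ Real.exp (t ^ 2 / 2) := by
        apply Real.exp_le_exp.mpr
        have h2 : ∑ i, (a i) ^ 2 ≤ 1 := by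
          have := EuclideanSpace.norm_sq_eq a
          simp only [Real.norm_eq_abs, sq_abs] at this
          rw [← this]
          nlinarith [norm_nonneg a]
        have h3 : ∑ i, (t * a i) ^ 2 / 2 = t ^ 2 / 2 * ∑ i, (a i) ^ 2 := by
          rw [Finset.mul_sum]
          refine Finset.sum_congr rfl fun i _ => ?_
          ring
        rw [h3]
        have : 0 ≤ t ^ 2 / 2 := by positivity
        nlinarith

/-- There is a sign vector whose inner products with a given finite family of vectors of norm at most one are all at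
most `√(2 log (2N))` in absolute value, `N` the number of vectors. -/
lemma exists_good_sign {m : ℕ} (C : Finset (EuclideanSpace ℝ (Fin m))) (hC : C.Nonempty)
    (h1 : ∀ c ∈ C, ‖c‖ ≤ 1) :
    ∃ e : Fin m → Bool, ∀ c ∈ C, |⟪sv e, c⟫| ≤ Real.sqrt (2 * Real.log (2 * C.card)) := by
  set L := Real.log (2 * C.card) with hL
  have hcard : (1 : ℝ) ≤ C.card := by exact_mod_cast hC.card_pos
  have hLpos : 0 < L := Real.log_pos (by linarith)
  set t := Real.sqrt (2 * L) with ht
  have htpos : 0 < t := Real.sqrt_pos.mpr (by linarith)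
  have ht2 : t ^ 2 = 2 * L := Real.sq_sqrt (by linarith)
  have hsum : ∑ e : Fin m → Bool, ∑ c ∈ C,
      (Real.exp (t * ⟪sv e, c⟫) + Real.exp (-t * ⟪sv e, c⟫)) ≤
      ∑ e : Fin m → Bool, (2 * C.card * Real.exp (t ^ 2 / 2)) := by
    rw [Finset.sum_comm]
    have h2 : ∀ c ∈ C, ∑ e : Fin m → Bool,
        (Real.exp (t * ⟪sv e, c⟫) + Real.exp (-t * ⟪sv e, c⟫)) ≤ 2 * (2 ^ m * Real.exp (t ^ 2 / 2)) := by
      intro c hc
      rw [Finset.sum_add_distrib]
      have ha := sum_exp_le t c (h1 c hc)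
      have hb := sum_exp_le (-t) c (h1 c hc)
      rw [neg_sq] at hb
      linarith
    refine (Finset.sum_le_sum h2).trans (le_of_eq ?_)
    rw [Finset.sum_const, Finset.sum_const, nsmul_eq_mul, nsmul_eq_mul]
    simp
    ring
  obtain ⟨e, _, he⟩ := Finset.exists_le_of_sum_le (s := (Finset.univ : Finset (Fin m → Bool)))
    Finset.univ_nonempty hsum
  refine ⟨e, fun c hc => ?_⟩
  have h3 : Real.exp (t * |⟪sv e, c⟫|) ≤ 2 * C.card * Real.exp (t ^ 2 / 2) := by
    refine le_trans ?_ he
    refine le_trans ?_ (Finset.single_le_sum (f := fun c =>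
      (Real.exp (t * ⟪sv e, c⟫) + Real.exp (-t * ⟪sv e, c⟫))) (fun c _ => by positivity) hc)
    rcases abs_cases ⟪sv e, c⟫ with h | h
    · rw [h.1]
      have := Real.exp_pos (-t * ⟪sv e, c⟫)
      linarith
    · rw [h.1]
      have := Real.exp_pos (t * ⟪sv e, c⟫)
      have h5 : t * -⟪sv e, c⟫ = -t * ⟪sv e, c⟫ := by ring
      rw [h5]
      linarith
  have h4 : t * |⟪sv e, c⟫| ≤ L + t ^ 2 / 2 := by
    have := Real.log_le_log (Real.exp_pos _) h3
    rw [Real.log_exp, Real.log_mul (by positivity) (Real.exp_pos _).ne', Real.log_exp] at this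
    exact this
  rw [ht2] at h4
  have h5 : t * |⟪sv e, c⟫| ≤ t * t := by
    have : t * t = 2 * L := by rw [← ht2]; ring
    linarith
  exact le_of_mul_le_mul_left h5 htpos

end H939NI
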