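import Pool.Agent.H939R3.NumIdxCard

set_option autoImplicit false

open Real
open scoped RealInnerProductSpace

namespace H939NI

section
variable {Y : Type*} [NormedAddCommGroup Y] [NormedSpace ℝ Y]

/-- At a point where the norm is differentiable the norming functional is the derivative. -/
lemma eq_fderiv_of_norming {z : Y} (hz : DifferentiableAt ℝ (fun y : Y => ‖y‖) z) {f : Y →L[ℝ] ℝ}
    (hf : ‖f‖ ≤ 1) (hfz : f z = ‖z‖) : fderiv ℝ (fun y : Y => ‖y‖) z = f := by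
  have hmin : IsLocalMin (fun y : Y => ‖y‖ - f y) z := by
    refine Filter.Eventually.of_forall fun y => ?_
    have h1 : f y ≤ ‖y‖ := by
      calc f y ≤ ‖f y‖ := Real.le_norm_self _
        _ ≤ ‖f‖ * ‖y‖ := f.le_opNorm y
        _ ≤ 1 * ‖y‖ := mul_le_mul_of_nonneg_right hf (norm_nonneg _)
        _ = ‖y‖ := one_mul _
    show ‖z‖ - f z ≤ ‖y‖ - f y
    rw [hfz]
    linarith
  have h0 := hmin.fderiv_eq_zero
  have h1 : fderiv ℝ (fun y : Y => ‖y‖ - f y) z = fderiv ℝ (fun y : Y => ‖y‖) z - f := by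
    have := fderiv_fun_sub hz f.differentiableAt
    rw [this, f.fderiv]
  rw [h1] at h0
  exact sub_eq_zero.mp h0

lemma functional_unique {z : Y} (hz : DifferentiableAt ℝ (fun y : Y => ‖y‖) z) {f f' : Y →L[ℝ] ℝ}
    (hf : ‖f‖ ≤ 1) (hfz : f z = ‖z‖) (hf' : ‖f'‖ ≤ 1) (hfz' : f' z = ‖z‖) : f = f' := by
  rw [← eq_fderiv_of_norming hz hf hfz, ← eq_fderiv_of_norming hz hf' hfz']

lemma point_unique {h : Y →L[ℝ] ℝ} (hh : DifferentiableAt ℝ (fun g : Y →L[ℝ] ℝ => ‖g‖) h) {u u' : Y}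
    (hu : ‖u‖ ≤ 1) (hhu : h u = ‖h‖) (hu' : ‖u'‖ ≤ 1) (hhu' : h u' = ‖h‖) : u = u' := by
  have key : ∀ u : Y, ‖u‖ ≤ 1 → ‖ContinuousLinearMap.apply ℝ ℝ u‖ ≤ 1 := by
    intro u hu
    refine ContinuousLinearMap.opNorm_le_bound _ zero_le_one fun g => ?_
    calc ‖ContinuousLinearMap.apply ℝ ℝ u g‖ = ‖g u‖ := rfl
      _ ≤ ‖g‖ * ‖u‖ := g.le_opNorm u
      _ ≤ ‖g‖ * 1 := mul_le_mul_of_nonneg_left hu (norm_nonneg _)
      _ = 1 * ‖g‖ := by ring
  have h1 := functional_unique hh (key u hu) (by simpa using hhu) (key u' hu') (by simpa using hhu')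
  rw [NormedSpace.eq_iff_forall_dual_eq ℝ]
  intro g
  have := congrArg (fun F : (Y →L[ℝ] ℝ) →L[ℝ] ℝ => F g) h1
  simpa using this

variable (Y) in
/-- Functionals norming a point of differentiability of the norm. -/
def Wset : Set (Y →L[ℝ] ℝ) := {f | ‖f‖ ≤ 1 ∧ ∃ z : Y, DifferentiableAt ℝ (fun y : Y => ‖y‖) z ∧ f z = ‖z‖}

variable (Y) in
/-- Points norming a functional at which the dual norm is differentiable. -/
def Vset : Set Y :=
  {u | ‖u‖ ≤ 1 ∧ ∃ h : Y →L[ℝ] ℝ, DifferentiableAt ℝ (fun g : Y →L[ℝ] ℝ => ‖g‖) h ∧ h u = ‖h‖}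

variable [FiniteDimensional ℝ Y]

lemma exists_max_point (h : Y →L[ℝ] ℝ) : ∃ u : Y, ‖u‖ ≤ 1 ∧ h u = ‖h‖ := by
  have : ProperSpace Y := FiniteDimensional.proper_real Y
  obtain ⟨u, hu, hmax⟩ := (isCompact_closedBall (0 : Y) 1).exists_isMaxOn ⟨0, by simp⟩
    h.continuous.continuousOn
  have hu1 : ‖u‖ ≤ 1 := by simpa using hu
  have h0 : 0 ≤ h u := by
    have := hmax (Metric.mem_closedBall_self zero_le_one : (0 : Y) ∈ Metric.closedBall (0 : Y) 1)
    simpa using this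
  refine ⟨u, hu1, le_antisymm ?_ ?_⟩
  · calc h u ≤ ‖h u‖ := Real.le_norm_self _
      _ ≤ ‖h‖ * ‖u‖ := h.le_opNorm u
      _ ≤ ‖h‖ * 1 := mul_le_mul_of_nonneg_left hu1 (norm_nonneg _)
      _ = ‖h‖ := mul_one _
  · refine h.opNorm_le_bound h0 fun x => ?_
    rcases eq_or_ne x 0 with rfl | hx
    · simp
    have hxn : 0 < ‖x‖ := norm_pos_iff.mpr hx
    have hle : ∀ y : Y, ‖y‖ = ‖x‖ → h y ≤ h u * ‖x‖ := by
      intro y hy
      have h1 : ‖x‖⁻¹ • y ∈ Metric.closedBall (0 : Y) 1 := by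
        simp [norm_smul, hy, inv_mul_cancel₀ hxn.ne']
      have h2 := hmax h1
      simp only [Set.mem_setOf_eq, map_smul, smul_eq_mul] at h2
      rw [inv_mul_le_iff₀ hxn] at h2
      linarith
    rw [Real.norm_eq_abs, abs_le]
    have h3 := hle x rfl
    have h4 := hle (-x) (norm_neg x)
    rw [map_neg] at h4
    constructor <;> linarith

lemma norming_W (y : Y) : ∃ f ∈ closure (Wset Y), ‖y‖ ≤ f y := by
  have : ProperSpace (Y →L[ℝ] ℝ) := FiniteDimensional.proper_real _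
  have hD := dense_differentiableAt_norm (E := Y)
  have hsub : closure (Wset Y) ⊆ Metric.closedBall 0 1 := by
    refine closure_minimal ?_ Metric.isClosed_closedBall
    intro f hf
    simpa using hf.1
  have hcomp : IsCompact (closure (Wset Y)) :=
    (isCompact_closedBall (0 : Y →L[ℝ] ℝ) 1).of_isClosed_subset isClosed_closure hsub
  have happ : ∀ ε : ℝ, 0 < ε → ∃ f ∈ Wset Y, ‖y‖ - 2 * ε ≤ f y := by
    intro ε hε
    obtain ⟨z, hz, hdist⟩ := hD.exists_dist_lt y hε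
    obtain ⟨f, hf1, hf2⟩ := exists_dual_vector'' ℝ z
    refine ⟨f, ⟨hf1, z, hz, by simpa using hf2⟩, ?_⟩
    have h1 : f y = ‖z‖ - f (z - y) := by
      rw [map_sub]
      have : f z = ‖z‖ := by simpa using hf2
      rw [this]; ring
    have h2 : f (z - y) ≤ ε := by
      calc f (z - y) ≤ ‖f (z - y)‖ := Real.le_norm_self _
        _ ≤ ‖f‖ * ‖z - y‖ := f.le_opNorm _
        _ ≤ 1 * ‖z - y‖ := mul_le_mul_of_nonneg_right hf1 (norm_nonneg _)
        _ = dist y z := by rw [one_mul, dist_comm, dist_eq_norm]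
        _ ≤ ε := hdist.le
    have h3 : ‖y‖ ≤ ‖z‖ + ε := by
      have : ‖y‖ ≤ ‖z‖ + ‖y - z‖ := by
        have := norm_add_le z (y - z)
        simpa using this
      have h4 : ‖y - z‖ < ε := by rwa [← dist_eq_norm]
      linarith
    rw [h1]; linarith
  obtain ⟨f1, hf1, _⟩ := happ 1 one_pos
  have hcont : Continuous fun f : Y →L[ℝ] ℝ => f y := (ContinuousLinearMap.apply ℝ ℝ y).continuous
  obtain ⟨f, hf, hmax⟩ := hcomp.exists_isMaxOn ⟨f1, subset_closure hf1⟩ hcont.continuousOn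
  refine ⟨f, hf, ?_⟩
  refine le_of_forall_pos_le_add fun ε hε => ?_
  obtain ⟨g, hg, hgy⟩ := happ (ε / 2) (by linarith)
  have : g y ≤ f y := hmax (subset_closure hg)
  linarith

lemma norming_V (h : Y →L[ℝ] ℝ) : ∃ u ∈ closure (Vset Y), ‖h‖ ≤ h u := by
  have : ProperSpace Y := FiniteDimensional.proper_real Y
  have hD := dense_differentiableAt_norm (E := Y →L[ℝ] ℝ)
  have hsub : closure (Vset Y) ⊆ Metric.closedBall 0 1 := by
    refine closure_minimal ?_ Metric.isClosed_closedBall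
    intro f hf
    simpa using hf.1
  have hcomp : IsCompact (closure (Vset Y)) :=
    (isCompact_closedBall (0 : Y) 1).of_isClosed_subset isClosed_closure hsub
  have happ : ∀ ε : ℝ, 0 < ε → ∃ u ∈ Vset Y, ‖h‖ - 2 * ε ≤ h u := by
    intro ε hε
    obtain ⟨z, hz, hdist⟩ := hD.exists_dist_lt h hε
    obtain ⟨u, hu1, hu2⟩ := exists_max_point z
    refine ⟨u, ⟨hu1, z, hz, hu2⟩, ?_⟩
    have h1 : h u = ‖z‖ - (z - h) u := by
      rw [ContinuousLinearMap.sub_apply, hu2]; ring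
    have h2 : (z - h) u ≤ ε := by
      calc (z - h) u ≤ ‖(z - h) u‖ := Real.le_norm_self _
        _ ≤ ‖z - h‖ * ‖u‖ := (z - h).le_opNorm _
        _ ≤ ‖z - h‖ * 1 := mul_le_mul_of_nonneg_left hu1 (norm_nonneg _)
        _ = dist h z := by rw [mul_one, dist_comm, dist_eq_norm]
        _ ≤ ε := hdist.le
    have h3 : ‖h‖ ≤ ‖z‖ + ε := by
      have : ‖h‖ ≤ ‖z‖ + ‖h - z‖ := by
        have := norm_add_le z (h - z)
        simpa using this
      have h4 : ‖h - z‖ < ε := by rwa [← dist_eq_norm]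
      linarith
    rw [h1]; linarith
  obtain ⟨f1, hf1, _⟩ := happ 1 one_pos
  obtain ⟨f, hf, hmax⟩ := hcomp.exists_isMaxOn ⟨f1, subset_closure hf1⟩ h.continuous.continuousOn
  refine ⟨f, hf, ?_⟩
  refine le_of_forall_pos_le_add fun ε hε => ?_
  obtain ⟨g, hg, hgy⟩ := happ (ε / 2) (by linarith)
  have : h g ≤ h f := hmax (subset_closure hg)
  linarith

/-- If the numerical index is one, points of `Vset` and functionals of `Wset` pair to `±1`. -/
lemma pairing [Nontrivial Y]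
    (hY : ∀ T : Y →L[ℝ] Y, ∀ r : ℝ, r < ‖T‖ →
      ∃ u : Y, ∃ f : Y →L[ℝ] ℝ, ‖u‖ = 1 ∧ ‖f‖ = 1 ∧ f u = 1 ∧ r < |f (T u)|)
    {u : Y} (hu : u ∈ Vset Y) {f : Y →L[ℝ] ℝ} (hf : f ∈ Wset Y) : |f u| = 1 := by
  obtain ⟨hu1, h, hh, hhu⟩ := hu
  obtain ⟨hf1, z, hz, hfz⟩ := hf
  have : ProperSpace Y := FiniteDimensional.proper_real Y
  have : ProperSpace (Y →L[ℝ] ℝ) := FiniteDimensional.proper_real _
  have hz0 : z ≠ 0 := by
    rintro rfl
    exact not_differentiableAt_norm_zero Y hz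
  have hntr : Nontrivial (Y →L[ℝ] ℝ) := by
    obtain ⟨y, hy⟩ := exists_ne (0 : Y)
    obtain ⟨g, _, hg⟩ := exists_dual_vector ℝ y (norm_ne_zero_iff.mpr hy)
    refine ⟨g, 0, fun h0 => ?_⟩
    rw [h0] at hg
    have hg' : (0 : ℝ) = ‖y‖ := by simpa using hg
    exact norm_ne_zero_iff.mpr hy hg'.symm
  have hh0 : h ≠ 0 := by
    rintro rfl
    exact not_differentiableAt_norm_zero _ hh
  have hzp : 0 < ‖z‖ := norm_pos_iff.mpr hz0
  have hhp : 0 < ‖h‖ := norm_pos_iff.mpr hh0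
  set T0 : Y →L[ℝ] Y := h.smulRight z with hT0
  have hT0n : ‖T0‖ = ‖h‖ * ‖z‖ := ContinuousLinearMap.norm_smulRight_apply h z
  -- compactness
  set S : Set (Y × (Y →L[ℝ] ℝ)) := {p | ‖p.1‖ = 1 ∧ ‖p.2‖ = 1 ∧ p.2 p.1 = 1} with hS
  have hev : Continuous fun p : Y × (Y →L[ℝ] ℝ) => p.2 p.1 :=
    continuous_snd.clm_apply continuous_fst
  have hScl : IsClosed S := by
    refine (isClosed_eq (continuous_fst.norm) continuous_const).inter
      ((isClosed_eq (continuous_snd.norm) continuous_const).inter (isClosed_eq hev continuous_const))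
  have hScomp : IsCompact S := by
    refine Metric.isCompact_of_isClosed_isBounded hScl ?_
    refine (Metric.isBounded_closedBall (x := (0 : Y × (Y →L[ℝ] ℝ))) (r := 1)).subset ?_
    intro p hp
    rw [mem_closedBall_zero_iff, Prod.norm_def]
    exact max_le hp.1.le hp.2.1.le
  have hSne : S.Nonempty := by
    obtain ⟨u', f', h1, h2, h3, _⟩ := hY T0 (‖T0‖ - 1) (by linarith)
    exact ⟨(u', f'), h1, h2, h3⟩
  have hcont : Continuous fun p : Y × (Y →L[ℝ] ℝ) => |p.2 (T0 p.1)| :=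
    (continuous_snd.clm_apply (T0.continuous.comp continuous_fst)).abs
  obtain ⟨⟨u', f'⟩, ⟨hu'1, hf'1, hfu'⟩, hmax⟩ := hScomp.exists_isMaxOn hSne hcont.continuousOn
  simp only at hu'1 hf'1 hfu'
  have hge : ‖T0‖ ≤ |f' (T0 u')| := by
    by_contra hlt
    push Not at hlt
    obtain ⟨u2, f2, h1, h2, h3, h4⟩ := hY T0 _ hlt
    have : |f2 (T0 u2)| ≤ |f' (T0 u')| := hmax (show (u2, f2) ∈ S from ⟨h1, h2, h3⟩)
    linarith
  have hval : |f' (T0 u')| = |h u'| * |f' z| := by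
    rw [hT0, ContinuousLinearMap.smulRight_apply, map_smul, smul_eq_mul, abs_mul]
  have hb1 : |h u'| ≤ ‖h‖ := by
    have := h.le_opNorm u'
    rw [hu'1, mul_one, Real.norm_eq_abs] at this
    exact this
  have hb2 : |f' z| ≤ ‖z‖ := by
    have := f'.le_opNorm z
    rw [hf'1, one_mul, Real.norm_eq_abs] at this
    exact this
  rw [hval, hT0n] at hge
  have he1 : |h u'| = ‖h‖ := by
    refine le_antisymm hb1 ?_
    by_contra hlt
    push Not at hlt
    have : |h u'| * |f' z| < ‖h‖ * ‖z‖ := by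
      calc |h u'| * |f' z| ≤ |h u'| * ‖z‖ := mul_le_mul_of_nonneg_left hb2 (abs_nonneg _)
        _ < ‖h‖ * ‖z‖ := mul_lt_mul_of_pos_right hlt hzp
    linarith
  have he2 : |f' z| = ‖z‖ := by
    refine le_antisymm hb2 ?_
    by_contra hlt
    push Not at hlt
    have : |h u'| * |f' z| < ‖h‖ * ‖z‖ := by
      rw [he1]
      exact mul_lt_mul_of_pos_left hlt hhp
    linarith
  have hu' : u = u' ∨ u = -u' := by
    rcases abs_cases (h u') with h5 | h5
    · left
      exact point_unique hh hu1 hhu hu'1.le (by rw [← he1, h5.1])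
    · right
      exact point_unique hh hu1 hhu (by rw [norm_neg]; exact hu'1.le) (by rw [map_neg, ← he1, h5.1])
  have hf' : f = f' ∨ f = -f' := by
    rcases abs_cases (f' z) with h5 | h5
    · left
      exact functional_unique hz hf1 hfz hf'1.le (by rw [← he2, h5.1])
    · right
      exact functional_unique hz hf1 hfz (by rw [norm_neg]; exact hf'1.le)
        (by rw [ContinuousLinearMap.neg_apply, ← he2, h5.1])
  rcases hu' with rfl | rfl <;> rcases hf' with rfl | rfl <;> simp [hfu']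

end

end H939NI
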